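import Mathlib
import Pool.Agent.X175.CSH.Main

/-- Homological span of the degree-zero chromatic symmetric homology over `Z`.
(1) For every graph with `n ≥ 2` vertices `H_0 ≠ 0`, `H_k = 0` for `k > n - 2`, so
`1 ≤ span_0 ≤ n - 1`. (2) For every connected graph with `n ≥ 2` vertices and `b` blocks
`n - b ≤ span_0`. (3) For the disconnected graph `2 K_2` one has `span_0 = 1` and `b = 2`, so the
lower bound `4 - 2 ≤ span_0` fails there. -/
theorem Pool.Agent.Results.MP_5bcb58_co.SpanBounds.result :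
    (∀ (n : ℕ) (G : SimpleGraph (Fin n)), 2 ≤ n →
      (Pool.Agent.X175.CSH.HNonzero G 0 ∧
        (∀ k, Pool.Agent.X175.CSH.HNonzero G k → k + 1 ≤ n - 1) ∧
        Pool.Agent.X175.CSH.span0 G ≤ n - 1 ∧
        (G.Connected → n - Pool.Agent.X175.CSH.numBlocks G ≤ Pool.Agent.X175.CSH.span0 G))) ∧
    (Pool.Agent.X175.CSH.span0 (SimpleGraph.fromEdgeSet ({s(0, 1), s(2, 3)} : Set (Sym2 (Fin 4)))) = 1
      ∧ Pool.Agent.X175.CSH.numBlocks
        (SimpleGraph.fromEdgeSet ({s(0, 1), s(2, 3)} : Set (Sym2 (Fin 4)))) = 2) := by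
  refine ⟨fun n G hn => ⟨Pool.Agent.X175.CSH.h0 G, ?_, Pool.Agent.X175.CSH.span0_le G hn, ?_⟩,
    Pool.Agent.X175.CSH.G0_span, Pool.Agent.X175.CSH.G0_blocks⟩
  · intro k hk
    exact Pool.Agent.X175.CSH.bdd G hn ⟨k, rfl, hk⟩
  · intro hG
    exact Pool.Agent.X175.CSH.lower_span0 G hn hG
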